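import Pool.Agent.helper97.KR.Spec

/-! Project KR: connected induced subgraphs -/

set_option autoImplicit false

namespace Pool.Agent.helper97.KR

open Finset Classical

noncomputable section

theorem CC2 {V E : Type} (ends : E → Sym2 V) (F : Set E) (U : Set V) (S : Finset V) (hS : ∀ v, v ∈ S ↔ v ∈ U)
    (h : ((SimpleGraph.fromEdgeSet (ends '' F)).induce U).Connected) :
    Con ends S {e | e ∈ F ∧ ∀ v ∈ ends e, v ∈ S} := by
  intro u hu v hv
  have hu' := (hS u).1 hu
  have hv' := (hS v).1 hv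
  obtain ⟨p⟩ := h.preconnected ⟨u, hu'⟩ ⟨v, hv'⟩
  have key : ∀ (a b : U) (p : ((SimpleGraph.fromEdgeSet (ends '' F)).induce U).Walk a b),
      Relation.ReflTransGen (Jn ends {e | e ∈ F ∧ ∀ v ∈ ends e, v ∈ S}) a.1 b.1 := by
    intro a b p
    induction p with
    | nil => exact Relation.ReflTransGen.refl
    | @cons a b c hab p ih =>
      refine Relation.ReflTransGen.head ?_ ih
      have h1 : (SimpleGraph.fromEdgeSet (ends '' F)).Adj a.1 b.1 := hab
      rw [SimpleGraph.fromEdgeSet_adj] at h1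
      obtain ⟨⟨e, he, hee⟩, -⟩ := h1
      refine ⟨e, ⟨he, ?_⟩, hee⟩
      intro w hw
      rw [hee, Sym2.mem_iff] at hw
      rcases hw with rfl | rfl
      · exact (hS _).2 a.2
      · exact (hS _).2 b.2
  exact key _ _ p

end

end Pool.Agent.helper97.KR
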