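import Pool.Agent.helper97.KR.Spec
import Pool.Agent.helper18.KU.All

/-! Row CON of project KR: a dominating vertex (assembly with the theorems MAIN and ORD of helper18) -/

set_option autoImplicit false

namespace Pool.Agent.helper97.KR

open Finset Classical

noncomputable section

theorem CON (hCNE : CNE_stmt) (hLB1 : LB1_stmt) (hLB2 : LB2_stmt) : CON_stmt := by
  intro V E ends S F x hG hx hdom hsl h2c
  have hC := hCNE V E ends S F x hG hx hdom hsl
  have hSt := Pool.Agent.KU.t_MAIN V _ _ _ hC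
  obtain ⟨e, h, h1, h2, h3, h4, h5, h6⟩ := Pool.Agent.KU.t_ORD V _ _ _ hSt
  obtain ⟨lam, l1, l2, l3⟩ := hLB1 V E ends S F x h hx h2c hG.sub hG.loop h3 h4 h5
  exact hLB2 V E ends S F x h lam e hx h3 l1 l2 l3 h1 h2 h6 h2c

end

end Pool.Agent.helper97.KR
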