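import Pool.Agent.helper97.KR.Spec
import Pool.Agent.helper97.KR.CC2

/-! Project KR: the two theorems for types -/

set_option autoImplicit false

namespace Pool.Agent.helper97.KR

open Finset Classical

noncomputable section

theorem layered (hTY : TY_stmt) (hSP3 : SP3_stmt) (hTGH : TGH_stmt) (hLYR : LYR_stmt) (hCC : CC_stmt)
    {V E : Type} [Fintype V] [Fintype E] (ends : E → Sym2 V)
    (T : Fin 3 → Set E) (R : ℕ → Set V) (x : V) (k : ℕ) (h2 : 2 ≤ Fintype.card V)
    (hT : ∀ i, Pool.Agent.ECO.IsSpanningTree ends (T i)) (hd : ∀ i j, i ≠ j → Disjoint (T i) (T j))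
    (hE : ∀ e, ∃ i, e ∈ T i) (h0 : R 0 = {x}) (hk : R k = Set.univ) (hsub : ∀ i < k, R i ⊆ R (i + 1))
    (hcon : ∀ i < k, ∀ j, ((SimpleGraph.fromEdgeSet (ends '' T j)).induce (R i)).Connected)
    (hdom : ∀ i < k, ∀ v ∈ R (i + 1), v ∉ R i →
      5 ≤ {e | v ∈ ends e ∧ ∀ u ∈ ends e, u ∈ R (i + 1)}.ncard → ∃ u ∈ R i, ∃ e, ends e = s(u, v)) :
    CyclicOrdering ends := by
  have hne : Nonempty V := ⟨x⟩
  have h3 : ThreeTrees ends := ⟨T, hT, hd, hE⟩
  obtain ⟨t1, t2⟩ := hTY V E ends h2
  have hG := t1.1 h3
  have hxR : ∀ i, i ≤ k → x ∈ R i := by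
    intro i
    induction i with
    | zero => intro _; rw [h0]; rfl
    | succ i ih => intro hi; exact hsub i (by omega) (ih (by omega))
  have hLk : (R k).toFinset = univ := by
    rw [Set.toFinset_eq_univ, hk]
  have hkey : ∀ i ≤ k, (ins ends univ (R i).toFinset).card + 3 = 3 * (R i).toFinset.card := by
    intro i hi
    rcases Nat.lt_or_ge i k with hik | hik
    · refine hTGH V E ends univ (R i).toFinset univ (fun j => (T j).toFinset) (fun e _ v _ => mem_univ _)
        (subset_univ _) ⟨x, by rw [Set.mem_toFinset]; exact hxR i hi⟩ ?_ ?_ ?_ ?_ ?_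
      · intro j
        have := (hT j).2
        rw [Set.ncard_eq_toFinset_card'] at this
        rw [card_univ]
        exact this
      · intro j
        have := (hCC V E ends (T j)).1 (hT j).1
        rw [Set.coe_toFinset]
        exact this
      · intro j j' hjj
        rw [Set.disjoint_toFinset]
        exact hd j j' hjj
      · intro e
        constructor
        · intro _
          obtain ⟨j, hj⟩ := hE e
          exact ⟨j, by rw [Set.mem_toFinset]; exact hj⟩
        · intro _
          exact mem_univ _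
      · intro j
        have := CC2 ends (T j) (R i) (R i).toFinset (fun v => Set.mem_toFinset) (hcon i hik j)
        have e1 : ((ins ends (T j).toFinset (R i).toFinset : Finset E) : Set E) =
            {e | e ∈ T j ∧ ∀ v ∈ ends e, v ∈ (R i).toFinset} := by
          ext e
          simp only [ins, coe_filter, Set.mem_toFinset, Set.mem_setOf_eq]
        rw [e1]
        exact this
    · have hik' : i = k := by omega
      subst hik'
      rw [hLk]
      have e1 : ins ends univ (univ : Finset V) = univ := by
        ext e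
        simp [ins]
      rw [e1]
      exact (hSP3 V E ends univ univ hG).1
  refine (t2 h3).2 ?_
  have := hLYR V E ends (fun i => (R i).toFinset) univ x k (by
      show G3 ends (R k).toFinset univ
      rw [hLk]; exact hG) (by
      ext v
      show v ∈ (R 0).toFinset ↔ v ∈ ({x} : Finset V)
      rw [Set.mem_toFinset, h0, mem_singleton]; rfl) (by
      intro i hi
      show (R i).toFinset ⊆ (R (i + 1)).toFinset
      rw [Set.toFinset_subset_toFinset]; exact hsub i hi) hkey (by
      intro i hi v hv hv' h5
      have hv1 : v ∈ R (i + 1) := Set.mem_toFinset.1 hv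
      have hv2 : v ∉ R i := fun h => hv' (Set.mem_toFinset.2 h)
      have e1 : {e | v ∈ ends e ∧ ∀ u ∈ ends e, u ∈ R (i + 1)}.ncard =
          dgr ends (ins ends univ (R (i + 1)).toFinset) v := by
        rw [Set.ncard_eq_toFinset_card', dgr]
        congr 1
        ext e
        simp only [ins, Set.mem_toFinset, Set.mem_setOf_eq, mem_filter, mem_univ, true_and]
        tauto
      obtain ⟨u, hu, e, he⟩ := hdom i hi v hv1 hv2 (by rw [e1]; exact h5)
      exact ⟨u, Set.mem_toFinset.2 hu, e, mem_univ _, he⟩)
  have h4 : KO ends (R k).toFinset univ := this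
  rw [hLk] at h4
  exact h4

theorem reduction (hTY : TY_stmt) (hRR : RR_stmt) (hTR : TR_stmt)
    (P : ∀ (V E : Type) [Fintype V] [Fintype E] (ends : E → Sym2 V), 2 ≤ Fintype.card V → ThreeTrees ends →
      (∀ U : Set V, U.Nonempty → U ≠ Set.univ → 5 ≤ {e | (∃ v ∈ ends e, v ∈ U) ∧ ∃ v ∈ ends e, v ∉ U}.ncard) →
      (∀ U : Set V, 2 ≤ U.ncard → U ≠ Set.univ → {e | ∀ v ∈ ends e, v ∈ U}.ncard + 4 ≤ 3 * U.ncard) →
      (∀ x : V, ∃ v, v ≠ x ∧ ∀ e, ends e ≠ s(x, v)) → CyclicOrdering ends)
    {V E : Type} [Fintype V] [Fintype E] (ends : E → Sym2 V) (h2 : 2 ≤ Fintype.card V) (h3 : ThreeTrees ends) :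
    CyclicOrdering ends := by
  have main : ∀ (V E : Type) [Fintype V] [Fintype E] (ends : E → Sym2 V), Hd ends univ univ → KO ends univ univ := by
    intro V E _ _ ends hH
    have h2 : 2 ≤ Fintype.card V := by
      have := hH.six
      rw [card_univ] at this
      omega
    obtain ⟨t1, t2⟩ := hTY V E ends h2
    have h3 := t1.2 hH.g
    refine (t2 h3).1 (P V E ends h2 h3 ?_ ?_ ?_)
    · intro U hU hU2
      have := hH.five U.toFinset (subset_univ _) (by rw [Set.toFinset_nonempty]; exact hU)
        (by rw [Ne, Set.toFinset_eq_univ]; exact hU2)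
      have e1 : {e | (∃ v ∈ ends e, v ∈ U) ∧ ∃ v ∈ ends e, v ∉ U}.ncard = (cut ends univ U.toFinset).card := by
        rw [Set.ncard_eq_toFinset_card', cut]
        congr 1
        ext e
        simp only [Set.mem_toFinset, Set.mem_setOf_eq, mem_filter, mem_univ, true_and]
      rw [e1]
      exact this
    · intro U hU hU2
      have hU' : U.toFinset.card = U.ncard := (Set.ncard_eq_toFinset_card' U).symm
      have := hH.slack U.toFinset (subset_univ _) (by omega) (by
        refine card_lt_card ?_
        rw [ssubset_univ_iff, Ne, Set.toFinset_eq_univ]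
        exact hU2)
      have e1 : {e | ∀ v ∈ ends e, v ∈ U}.ncard = (ins ends univ U.toFinset).card := by
        rw [Set.ncard_eq_toFinset_card', ins]
        congr 1
        ext e
        simp only [Set.mem_toFinset, Set.mem_setOf_eq, mem_filter, mem_univ, true_and]
      rw [e1, ← hU']
      exact this
    · intro x
      obtain ⟨v, -, hv, hv2⟩ := hH.dom x (mem_univ _)
      exact ⟨v, hv, fun e => hv2 e (mem_univ _)⟩
  obtain ⟨t1, t2⟩ := hTY V E ends h2
  exact (t2 h3).2 (hRR V E (hTR main V E) ends univ univ (t1.1 h3))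

end

end Pool.Agent.helper97.KR
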