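import Pool.Agent.helper97.KR.Spec
import Pool.Agent.helper97.KR.DOM
import Pool.Agent.helper97.KR.CC2
import Pool.Agent.helper97.KR.Ty
import Pool.Agent.helper53.KR.MIN
import Pool.Agent.helper56.KR.CT1
import Pool.Agent.helper67.KR.CT2
import Pool.Agent.helper27.KR.SP1
import Pool.Agent.helper66.KR.LP
import Pool.Agent.helper57.KR.SP3
import Pool.Agent.helper82.KR.TG
import Pool.Agent.helper32.KR.DG
import Pool.Agent.helper9.KR.CUT
import Pool.Agent.helper6.KR.SHF
import Pool.Agent.helper95.KR.INT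
import Pool.Agent.helper29.KR.INS
import Pool.Agent.helper60.KR.TSK
import Pool.Agent.helper79.KR.TWO
import Pool.Agent.helper48.KR.G4
import Pool.Agent.helper16.KR.G5
import Pool.Agent.helper8.KR.D4P
import Pool.Agent.helper46.KR.CN4
import Pool.Agent.helper78.KR.I4
import Pool.Agent.helper87.KR.CE
import Pool.Agent.helper5.KR.CNE
import Pool.Agent.helper96.KR.LB1
import Pool.Agent.helper85.KR.LB2
import Pool.Agent.helper35.KR.ST
import Pool.Agent.helper33.KR.AA
import Pool.Agent.helper27.KR.BB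
import Pool.Agent.helper75.KR.RR
import Pool.Agent.helper51.KR.TR
import Pool.Agent.helper73.KR.CC
import Pool.Agent.helper15.KR.TY
import Pool.Agent.helper99.KR.LYR
import Pool.Agent.helper23.KR.TGH

/-! Project KR: all rows put together. -/

set_option autoImplicit false

namespace Pool.Agent.helper97.KR

open Finset Classical

noncomputable section

theorem fSP1 : SP1_stmt := SP1 MIN CT1

theorem fLP : LP_stmt := LP MIN

theorem fSP3 : SP3_stmt := SP3 fSP1

theorem fTG : TG_stmt := TG fSP1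

theorem fCUT : CUT_stmt := CUT fSP3

theorem fTSK : TSK_stmt := TSK INT CT2

theorem fG4 : G4_stmt := G4 fLP

theorem fI4 : I4_stmt := I4 SHF INS CN4

theorem fCNE : CNE_stmt := CNE CE fSP3

theorem fCON : CON_stmt := CON fCNE LB1_fix LB2

theorem fST : ST_stmt := ST DG fSP3 fTG fTSK TWO fG4 G5 D4P fI4

theorem fAA : AA_stmt := AA TWO fST DG fSP3

theorem fBB : BB_stmt := BB TWO fST fSP3 fTG fTSK fAA fCON

theorem fRR : RR_stmt := RR fAA fSP3 fTG fTSK fST fCON fCUT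

theorem fTY : TY_stmt := TY CC fLP SHF

theorem fLYR : LYR_stmt := LYR fSP3 fTG fTSK fBB

theorem fTGH : TGH_stmt := TGH MIN fSP1

theorem fLayered {V E : Type} [Fintype V] [Fintype E] (ends : E → Sym2 V)
    (T : Fin 3 → Set E) (R : ℕ → Set V) (x : V) (k : ℕ) (h2 : 2 ≤ Fintype.card V)
    (hT : ∀ i, Pool.Agent.ECO.IsSpanningTree ends (T i)) (hd : ∀ i j, i ≠ j → Disjoint (T i) (T j))
    (hE : ∀ e, ∃ i, e ∈ T i) (h0 : R 0 = {x}) (hk : R k = Set.univ) (hsub : ∀ i < k, R i ⊆ R (i + 1))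
    (hcon : ∀ i < k, ∀ j, ((SimpleGraph.fromEdgeSet (ends '' T j)).induce (R i)).Connected)
    (hdom : ∀ i < k, ∀ v ∈ R (i + 1), v ∉ R i →
      5 ≤ {e | v ∈ ends e ∧ ∀ u ∈ ends e, u ∈ R (i + 1)}.ncard → ∃ u ∈ R i, ∃ e, ends e = s(u, v)) :
    CyclicOrdering ends :=
  layered fTY fSP3 fTGH fLYR CC ends T R x k h2 hT hd hE h0 hk hsub hcon hdom

theorem fReduction
    (P : ∀ (V E : Type) [Fintype V] [Fintype E] (ends : E → Sym2 V), 2 ≤ Fintype.card V → ThreeTrees ends →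
      (∀ U : Set V, U.Nonempty → U ≠ Set.univ → 5 ≤ {e | (∃ v ∈ ends e, v ∈ U) ∧ ∃ v ∈ ends e, v ∉ U}.ncard) →
      (∀ U : Set V, 2 ≤ U.ncard → U ≠ Set.univ → {e | ∀ v ∈ ends e, v ∈ U}.ncard + 4 ≤ 3 * U.ncard) →
      (∀ x : V, ∃ v, v ≠ x ∧ ∀ e, ends e ≠ s(x, v)) → CyclicOrdering ends)
    {V E : Type} [Fintype V] [Fintype E] (ends : E → Sym2 V) (h2 : 2 ≤ Fintype.card V) (h3 : ThreeTrees ends) :
    CyclicOrdering ends :=
  reduction fTY fRR TR P ends h2 h3

end

end Pool.Agent.helper97.KR
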