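import Pool.Agent.helper18.KU.Spec
import Pool.Agent.helper58.ECO.G

/-!
# Project KR (rows kr:XX of MP_974a61_co): reductions for cyclic orderings of three spanning trees

A multigraph has the labels (edges) `e ∈ F` with the ends `ends e`, and the vertex set `S`.
`G3`: `F` is the union of three disjoint spanning trees on `S`.  `KO`: there is a cyclic ordering.
All cardinalities are written without subtraction.
-/

set_option autoImplicit false

namespace Pool.Agent.helper97.KR

open Finset Classical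

noncomputable section

/-- `a` and `b` are joined by an edge of `F` -/
def Jn {V E : Type} (ends : E → Sym2 V) (F : Set E) (a b : V) : Prop := ∃ e ∈ F, ends e = s(a, b)

/-- any two vertices of `S` are joined by a path with edges in `F` -/
def Con {V E : Type} (ends : E → Sym2 V) (S : Finset V) (F : Set E) : Prop :=
  ∀ u ∈ S, ∀ v ∈ S, Relation.ReflTransGen (Jn ends F) u v

/-- the edges of `F` with both ends in `U` -/
def ins {V E : Type} (ends : E → Sym2 V) (F : Finset E) (U : Finset V) : Finset E :=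
  F.filter fun e => ∀ v ∈ ends e, v ∈ U

/-- the degree of `v` -/
def dgr {V E : Type} (ends : E → Sym2 V) (F : Finset E) (v : V) : ℕ := (F.filter fun e => v ∈ ends e).card

/-- the edges between `U` and its complement -/
def cut {V E : Type} (ends : E → Sym2 V) (F : Finset E) (U : Finset V) : Finset E :=
  F.filter fun e => (∃ v ∈ ends e, v ∈ U) ∧ ∃ v ∈ ends e, v ∉ U

/-- `F` is the union of three pairwise disjoint spanning trees on the vertex set `S` -/
structure G3 {V E : Type} (ends : E → Sym2 V) (S : Finset V) (F : Finset E) : Prop where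
  ne : S.Nonempty
  sub : ∀ e ∈ F, ∀ v ∈ ends e, v ∈ S
  loop : ∀ e ∈ F, ¬ (ends e).IsDiag
  tr : ∃ T : Fin 3 → Finset E, (∀ i, (T i).card + 1 = S.card) ∧ (∀ i, Con ends S (T i : Set E)) ∧
    (∀ i j, i ≠ j → Disjoint (T i) (T j)) ∧ ∀ e, e ∈ F ↔ ∃ i, e ∈ T i

/-- there is a cyclic ordering, as a `3 m`-periodic sequence, `m = |S| - 1`: every edge occurs once in a
period, any `m` consecutive edges connect `S` -/
def KO {V E : Type} (ends : E → Sym2 V) (S : Finset V) (F : Finset E) : Prop :=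
  2 ≤ S.card → ∃ c : ℤ → E, (∀ j, c (j + 3 * ((S.card : ℤ) - 1)) = c j) ∧
    Set.BijOn c (Set.Ico 0 (3 * ((S.card : ℤ) - 1))) (F : Set E) ∧
    ∀ j, Con ends S (c '' Set.Ico j (j + ((S.card : ℤ) - 1)))

/-- all vertices of `U` are identified with `t` -/
def cp {V : Type} (U : Finset V) (t : V) (v : V) : V := if v ∈ U then t else v

/-- the vertex set after the contraction of `U` to `t` -/
def cS {V : Type} (S U : Finset V) (t : V) : Finset V := insert t (S \ U)

/-- the ends after the contraction of `U` to `t` -/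
def cE {V E : Type} (ends : E → Sym2 V) (U : Finset V) (t : V) (e : E) : Sym2 V := (ends e).map (cp U t)

/-- the situation at a vertex `v` of degree 4 -/
structure D4 {V E : Type} (ends : E → Sym2 V) (S : Finset V) (F : Finset E) (v a b : V)
    (x1 x2 u2 u3 : E) : Prop where
  g : G3 ends S F
  vS : v ∈ S
  aS : a ∈ S
  bS : b ∈ S
  ab : a ≠ b
  av : a ≠ v
  bv : b ≠ v
  n12 : x1 ≠ x2
  n13 : x1 ≠ u2
  n14 : x1 ≠ u3
  n23 : x2 ≠ u2
  n24 : x2 ≠ u3
  n34 : u2 ≠ u3
  all : ∀ e, (e ∈ F ∧ v ∈ ends e) ↔ (e = x1 ∨ e = x2 ∨ e = u2 ∨ e = u3)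
  e1 : ends x1 = s(v, a)
  e2 : ends x2 = s(v, b)

/-- the irreducible multigraphs -/
structure Hd {V E : Type} (ends : E → Sym2 V) (S : Finset V) (F : Finset E) : Prop where
  g : G3 ends S F
  six : 6 ≤ S.card
  five : ∀ U ⊆ S, U.Nonempty → U ≠ S → 5 ≤ (cut ends F U).card
  slack : ∀ U ⊆ S, 2 ≤ U.card → U.card < S.card → (ins ends F U).card + 4 ≤ 3 * U.card
  dom : ∀ x ∈ S, ∃ v ∈ S, v ≠ x ∧ ∀ e ∈ F, ends e ≠ s(x, v)

/-! ## Connectedness -/

/-- MIN (short to medium).  A connected graph on `S` has at least `|S| - 1` edges.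
Proof.  `S = ∅` is clear.  The simple graph on `↥S` with `G.Adj a b ↔ a ≠ b ∧ ∃ e ∈ F, ends e = s(a, b)` is connected
(Con; the paths stay in `S` since all ends are in `S`); `SimpleGraph.Connected.card_vert_le_card_edgeSet_add_one`
(or an induction), and `F → edges` is onto `G.edgeSet`. -/
def MIN_stmt : Prop := ∀ (V E : Type) (ends : E → Sym2 V) (S : Finset V) (F : Finset E),
  (∀ e ∈ F, ∀ v ∈ ends e, v ∈ S) → Con ends S (F : Set E) → S.card ≤ F.card + 1

/-- CT1 (short).  Contraction keeps connectedness; the edges inside `U` can be dropped.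
Proof.  Map a path by `cp U t`: an edge inside `U` becomes `t, t`, all others stay edges
(`Relation.ReflTransGen.lift'` or an induction).  For `u ∈ cS S U t`: `cp U t u = u` as `t ∈ U`. -/
def CT1_stmt : Prop := ∀ (V E : Type) (ends : E → Sym2 V) (S U : Finset V) (t : V) (F : Set E), t ∈ U → U ⊆ S →
  Con ends S F → Con (cE ends U t) (cS S U t) {e | e ∈ F ∧ ¬ ∀ v ∈ ends e, v ∈ U}

/-- CT2 (short).  Lifting.
Proof.  `u ∈ S` is joined to `cp U t u` by `W1` (both in `U`, or equal).  A step `a', b'` of the contracted path by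
`e ∈ W2`, `ends e = s(a, b)`, `cp U t a = a'`, `cp U t b = b'`: `a'` is joined to `a`, and `b` to `b'`, by `W1`. -/
def CT2_stmt : Prop := ∀ (V E : Type) (ends : E → Sym2 V) (S U : Finset V) (t : V) (W1 W2 : Set E), t ∈ U → U ⊆ S →
  Con ends U W1 → Con (cE ends U t) (cS S U t) W2 → Con ends S (W1 ∪ W2)

/-- SP1 (medium).  A tree has at most `|U| - 1` edges inside `U`, and connects `U` if there are `|U| - 1`.
Proof.  (a) By CT1 the edges of `T` not inside `U` connect the contracted graph, whose vertex set has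
`|S| - |U| + 1` elements (`t ∉ S \ U`); MIN for `cE` (the ends of the contracted edges lie in `cS`):
`|S| - |U| + 1 ≤ |T| - |T[U]| + 1`.  (b) In the case of equality: if `U` is not connected by `T[U]`, let
`A` = the vertices of `U` reachable from some `u ∈ U` by `T[U]`, `B = U \ A`, both nonempty; no edge of `T[U]` joins
`A` and `B`, so `|T[U]| = |T[A]| + |T[B]| ≤ |U| - 2` by (a): a contradiction.  (c) is CT1. -/
def SP1_stmt : Prop := ∀ (V E : Type) (ends : E → Sym2 V) (S : Finset V) (T : Finset E),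
  (∀ e ∈ T, ∀ v ∈ ends e, v ∈ S) → Con ends S (T : Set E) → T.card + 1 = S.card →
  ∀ U ⊆ S, ∀ t ∈ U, (ins ends T U).card + 1 ≤ U.card ∧
    ((ins ends T U).card + 1 = U.card → Con ends U (ins ends T U : Set E) ∧
      Con (cE ends U t) (cS S U t) ((T \ ins ends T U : Finset E) : Set E))

/-- LP (short).  A tree has no loop and no two parallel edges.
Proof.  `T.erase e` still connects `S` (a loop is never needed; for parallel edges use the other one); MIN. -/
def LP_stmt : Prop := ∀ (V E : Type) (ends : E → Sym2 V) (S : Finset V) (T : Finset E),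
  (∀ e ∈ T, ∀ v ∈ ends e, v ∈ S) → Con ends S (T : Set E) → T.card + 1 = S.card →
  (∀ e ∈ T, ¬ (ends e).IsDiag) ∧ ∀ e ∈ T, ∀ e' ∈ T, ends e = ends e' → e = e'

/-- SP3 (short).  The numbers of edges of three trees.  Proof: SP1 for each of the trees, `F` and `ins ends F U` are
the disjoint unions of the `T i`, of the `ins ends (T i) U`. -/
def SP3_stmt : Prop := ∀ (V E : Type) (ends : E → Sym2 V) (S : Finset V) (F : Finset E), G3 ends S F →
  F.card + 3 = 3 * S.card ∧ ∀ U ⊆ S, U.Nonempty → (ins ends F U).card + 3 ≤ 3 * U.card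

/-- TG (medium).  Tight sets: restriction and contraction.
Proof.  By SP1 `|T_i[U]| + 1 ≤ |U|` for each of the trees, and the sum of the three is `3 |U| - 3`, so there is
equality, and SP1 gives that `T_i[U]` is a tree on `U`, and `T_i \ T_i[U]` connects the contracted graph, with
`|S| - |U|` edges, `|cS| = |S| - |U| + 1`.  No loops: `cp a = cp b` with `a ≠ b` only if both are in `U`. -/
def TG_stmt : Prop := ∀ (V E : Type) (ends : E → Sym2 V) (S U : Finset V) (t : V) (F : Finset E), G3 ends S F →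
  U ⊆ S → t ∈ U → (ins ends F U).card + 3 = 3 * U.card →
  G3 ends U (ins ends F U) ∧ G3 (cE ends U t) (cS S U t) (F \ ins ends F U)

/-- DG (short).  Degrees.  Proof.  Every tree has an edge at `v` (there is another vertex).  `ins ends F (S.erase v)`
= the edges not at `v`.  The sum: no loops (double counting, `Sym2` of two different elements has card 2). -/
def DG_stmt : Prop := ∀ (V E : Type) (ends : E → Sym2 V) (S : Finset V) (F : Finset E), G3 ends S F → 2 ≤ S.card →
  (∀ v ∈ S, 3 ≤ dgr ends F v ∧ (ins ends F (S.erase v)).card + dgr ends F v = F.card) ∧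
  ∑ v ∈ S, dgr ends F v = 2 * F.card

/-- CUT (short).  Edge cuts.  Proof.  `|F| = |F[U]| + |F[S \ U]| + |cut|`, `|F| = 3 |S| - 3` (SP3).  If `U = {v}` or
`S \ U = {v}`, the cut consists of the edges at `v`.  Otherwise `|cut| ≥ 3|S| - 3 - (3|U| - 4) - (3|S \ U| - 4) = 5`. -/
def CUT_stmt : Prop := ∀ (V E : Type) (ends : E → Sym2 V) (S : Finset V) (F : Finset E), G3 ends S F →
  (∀ U ⊆ S, 2 ≤ U.card → U.card < S.card → (ins ends F U).card + 4 ≤ 3 * U.card) →
  (∀ v ∈ S, 5 ≤ dgr ends F v) → ∀ U ⊆ S, U.Nonempty → U ≠ S → 5 ≤ (cut ends F U).card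

/-! ## Sequences -/

/-- SHF (short).  Shifts of a periodic sequence.  Proof: `j ↦ (j + k) % N` is a bijection of `[0, N)`. -/
def SHF_stmt : Prop := ∀ (E : Type) (N k : ℤ) (c : ℤ → E) (A : Set E), 1 ≤ N → (∀ j, c (j + N) = c j) →
  Set.BijOn c (Set.Ico 0 N) A → (∀ j, c (j + k + N) = c (j + k)) ∧ Set.BijOn (fun j => c (j + k)) (Set.Ico 0 N) A ∧
  ∀ i j, c i = c j ↔ N ∣ i - j

/-- INT (medium).  Interleaving.  Put `N = m + n`, `q = j / N`, `s = j % N`, `e j = c (q m + s)` if `s < m`, and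
`e j = d (q n + (s - m))` otherwise.  The window of `N` elements from `j = q N + s` consists of
`c (q m + s), ..., c (q m + s + m - 1)` and `d (q n), ..., d (q n + n - 1)` if `s ≤ m` and of
`c ((q+1) m), ...` and `d (q n + s - m), ...` if `s ≥ m`. -/
def INT_stmt : Prop := ∀ (E : Type) (m n : ℤ) (c d : ℤ → E) (A B : Set E), 1 ≤ m → 1 ≤ n →
  (∀ j, c (j + 3 * m) = c j) → (∀ j, d (j + 3 * n) = d j) → Set.BijOn c (Set.Ico 0 (3 * m)) A →
  Set.BijOn d (Set.Ico 0 (3 * n)) B → Disjoint A B →
  ∃ e : ℤ → E, (∀ j, e (j + 3 * (m + n)) = e j) ∧ Set.BijOn e (Set.Ico 0 (3 * (m + n))) (A ∪ B) ∧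
    ∀ j, ∃ i k, e '' Set.Ico j (j + (m + n)) = c '' Set.Ico i (i + m) ∪ d '' Set.Ico k (k + n)

/-- INS (medium).  Insertion of three elements.  Put `N = m + 1`, `q = j / N`, `s = j % N`: `e j = y_(q % 3)` if `s = 0`
and `e j = c (q m + s - 1)` otherwise.  The window of `N` elements from `j = q N + s` is
`y_q` and `c (q m), ..., c (q m + m - 1)` if `s = 0`; for `s ≥ 1` it is `y_(q+1)` and
`c (q m + s - 1), ..., c (q m + s - 1 + m - 1)`.  By the period take `q = 0, 1, 2` if `s = 0` and `q + 1 = 0, 1, 2` if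
`s ≥ 1`. -/
def INS_stmt : Prop := ∀ (E : Type) (m : ℤ) (c : ℤ → E) (A : Set E) (y0 y1 y2 : E), 1 ≤ m →
  (∀ j, c (j + 3 * m) = c j) → Set.BijOn c (Set.Ico 0 (3 * m)) A → y0 ∉ A → y1 ∉ A → y2 ∉ A → y0 ≠ y1 → y0 ≠ y2 →
  y1 ≠ y2 →
  ∃ e : ℤ → E, (∀ j, e (j + 3 * (m + 1)) = e j) ∧ Set.BijOn e (Set.Ico 0 (3 * (m + 1))) (A ∪ {y0, y1, y2}) ∧
    ∀ j, ∃ i, (-m ≤ i ∧ i ≤ 0 ∧ e '' Set.Ico j (j + (m + 1)) = insert y0 (c '' Set.Ico i (i + m))) ∨
      (0 ≤ i ∧ i ≤ m ∧ e '' Set.Ico j (j + (m + 1)) = insert y1 (c '' Set.Ico i (i + m))) ∨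
      (m ≤ i ∧ i ≤ 2 * m ∧ e '' Set.Ico j (j + (m + 1)) = insert y2 (c '' Set.Ico i (i + m)))

/-! ## Tight sets and small graphs -/

/-- TSK (short to medium).  Composition at a tight set.  `m = |U| - 1`, `n = |S| - |U|`, `|cS| = n + 1`; INT for the two
orderings (`F` is the disjoint union of `ins ends F U` and the rest), CT2 for the windows. -/
def TSK_stmt : Prop := ∀ (V E : Type) (ends : E → Sym2 V) (S U : Finset V) (t : V) (F : Finset E), U ⊆ S → t ∈ U →
  2 ≤ U.card → U.card < S.card → KO ends U (ins ends F U) → KO (cE ends U t) (cS S U t) (F \ ins ends F U) → KO ends S F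

/-- TWO (short).  Two vertices.  Every tree has exactly one edge `t i`; `c j` = `t` of `j` modulo 3. -/
def TWO_stmt : Prop := ∀ (V E : Type) (ends : E → Sym2 V) (S : Finset V) (F : Finset E), G3 ends S F → S.card = 2 →
  KO ends S F

/-! ## Vertices of degree 4 -/

/-- G4 (medium).  Every tree has an edge at `v`, so one has two, `x1, x2`, and the other two one each, `u2, u3`.  By LP
`ends x1 = s(v, a)`, `ends x2 = s(v, b)` with `a ≠ b`, both different from `v`. -/
def G4_stmt : Prop := ∀ (V E : Type) (ends : E → Sym2 V) (S : Finset V) (F : Finset E) (v : V), G3 ends S F → v ∈ S →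
  dgr ends F v = 4 → ∃ a b x1 x2 u2 u3, D4 ends S F v a b x1 x2 u2 u3 ∧
    ∃ T : Fin 3 → Finset E, (∀ i, (T i).card + 1 = S.card) ∧ (∀ i, Con ends S (T i : Set E)) ∧
      (∀ i j, i ≠ j → Disjoint (T i) (T j)) ∧ (∀ e, e ∈ F ↔ ∃ i, e ∈ T i) ∧
      x1 ∈ T 0 ∧ x2 ∈ T 0 ∧ u2 ∈ T 1 ∧ u3 ∈ T 2

/-- G5 (medium).  The smaller graph: `x1` now joins `a` and `b`; `x2, u2, u3` are deleted.
Proof.  The trees `T 0 \ {x2}` with the new ends, `T 1 \ {u2}`, `T 2 \ {u3}` connect `S.erase v`: map a path by `ρ`, `ρ v` = the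
other end of `x1`, `u2`, `u3` respectively, `ρ w = w` otherwise (the only edges of the tree at `v` are `x1, x2`, resp. `u2`,
resp. `u3`, by `D4.all` and disjointness); `v a` becomes `a, a`, and `v b` becomes `a, b`, an edge by the new `x1`.
Sizes: `|T i| - 1 + 1 = |S| - 1`.  No loops as `a ≠ b`. -/
def G5_stmt : Prop := ∀ (V E : Type) (ends : E → Sym2 V) (S : Finset V) (F : Finset E) (v a b : V) (x1 x2 u2 u3 : E)
  (T : Fin 3 → Finset E), D4 ends S F v a b x1 x2 u2 u3 →
  (∀ i, (T i).card + 1 = S.card) → (∀ i, Con ends S (T i : Set E)) →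
  (∀ i j, i ≠ j → Disjoint (T i) (T j)) → (∀ e, e ∈ F ↔ ∃ i, e ∈ T i) →
  x1 ∈ T 0 → x2 ∈ T 0 → u2 ∈ T 1 → u3 ∈ T 2 →
  G3 (Function.update ends x1 s(a, b)) (S.erase v) (F \ {x2, u2, u3})

/-- D4P (short to medium).  In the smaller graph degrees do not increase and adjacent vertices stay adjacent.
Proof.  An edge `e ≠ x1` of `F \ {x2, u2, u3}` is not at `v` and keeps its ends.  `x1` is at `a` before and after; at `b` it
replaces `x2`: the map `x1 ↦ x2`, `e ↦ e` is injective from the new edges at `b` to the old ones. -/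
def D4P_stmt : Prop := ∀ (V E : Type) (ends : E → Sym2 V) (S : Finset V) (F : Finset E) (v a b : V) (x1 x2 u2 u3 : E),
  D4 ends S F v a b x1 x2 u2 u3 →
  (∀ w ∈ S.erase v, dgr (Function.update ends x1 s(a, b)) (F \ {x2, u2, u3}) w ≤ dgr ends F w) ∧
  ∀ w ∈ S.erase v, ∀ w' ∈ S.erase v, (∃ e ∈ F, ends e = s(w, w')) →
    ∃ e ∈ F \ {x2, u2, u3}, Function.update ends x1 s(a, b) e = s(w, w')

/-- CN4 (medium).  Connectedness after the insertion of `v`; `W` connects `S0` in the smaller graph.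
(i) `x1 ∉ W`: add any edge at `v`.  (ii) `x1 ∈ W`: a step `a, b` by the new `x1` is replaced by `a, v, b`.
(iii) `x1 ∈ W`, `R = W \ {x1}`: `c` is joined by `R` to `a` or to `b` (follow a path from `c` to `a` in the smaller graph to the
first use of `x1`); if to `b`: take `z = x1` (`a, v, c, ..., b`), otherwise `z = x2` (`b, v, c, ..., a`); then `a` and `b` are joined, so
all vertices are. -/
def CN4_stmt : Prop := ∀ (V E : Type) (ends : E → Sym2 V) (S0 : Finset V) (v a b c : V) (x1 x2 y : E) (W : Set E),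
  v ∉ S0 → a ∈ S0 → b ∈ S0 → c ∈ S0 → ends x1 = s(v, a) → ends x2 = s(v, b) → ends y = s(v, c) →
  Con (Function.update ends x1 s(a, b)) S0 W →
  (x1 ∉ W → Con ends (insert v S0) (insert y W)) ∧
  (x1 ∈ W → Con ends (insert v S0) (insert x2 W)) ∧
  (x1 ∈ W → Con ends (insert v S0) (insert y (insert x1 (W \ {x1}))) ∨
    Con ends (insert v S0) (insert y (insert x2 (W \ {x1}))))

/-- I4 (medium).  The order of the smaller graph gives one of the graph.
Proof.  `m = |S| - 2 ≥ 1`.  By SHF shift the order `c` such that `c (-1) = x1`; then `c j = x1` only for `j = -1` modulo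
`3 m`.  `W0` = the window `c '' [2 m, 3 m)`, it contains `x1`.  CN4 (iii) for `W0`, `y = u3` gives `z ∈ {x1, x2}`; let `z'` be the other one,
`c' j = z` if `c j = x1` and `c j` otherwise.  INS for `c'`, `A = (F \ {x2, u2, u3}) \ {x1} ∪ {z}`, `y0 = z'`, `y1 = u2`, `y2 = u3`.
Windows: `y0`: if `x1` is in the window of `c`, the set is `W \ {x1} ∪ {x1, x2}`, CN4 (ii); otherwise CN4 (i) (with `y = x1` or `x2`).
`y1`, `0 ≤ i ≤ m`: the window of `c` does not contain `x1`, CN4 (i).  `y2`, `m ≤ i ≤ 2 m`: the same for `i < 2 m`; for `i = 2 m` it is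
the choice of `z`.  `A ∪ {y0, y1, y2} = F`. -/
def I4_stmt : Prop := ∀ (V E : Type) (ends : E → Sym2 V) (S : Finset V) (F : Finset E) (v a b : V) (x1 x2 u2 u3 : E),
  D4 ends S F v a b x1 x2 u2 u3 →
  KO (Function.update ends x1 s(a, b)) (S.erase v) (F \ {x2, u2, u3}) → KO ends S F

/-! ## A dominating vertex -/

/-- CE (short to medium).  Counting edges by their ends (no loops).  First: every edge inside `T` has two orders of its two
ends.  Second: an edge inside `insert x T` is inside `T` or is `s(x, v)` for exactly one `v ∈ T`. -/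
def CE_stmt : Prop := ∀ (V E : Type) (ends : E → Sym2 V) (F : Finset E) (T : Finset V) (x : V),
  (∀ e ∈ F, ¬ (ends e).IsDiag) → x ∉ T →
  ∑ u ∈ T, ∑ v ∈ T, (F.filter fun e => ends e = s(u, v)).card = 2 * (ins ends F T).card ∧
  (ins ends F (insert x T)).card = (ins ends F T).card + ∑ v ∈ T, (F.filter fun e => ends e = s(x, v)).card

/-- CNE (short).  The class `Cone` of Pool.Agent.helper18.KU.Spec.  CE and SP3: `E w T` = the number of edges inside `T`,
`E w T + ∑_T X` = the number of edges inside `insert x T`, at most `3 |T|`, with equality for `T = S.erase x`. -/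
def CNE_stmt : Prop := ∀ (V E : Type) (ends : E → Sym2 V) (S : Finset V) (F : Finset E) (x : V), G3 ends S F → x ∈ S →
  (∀ v ∈ S, v ≠ x → ∃ e ∈ F, ends e = s(x, v)) →
  (∀ U ⊆ S.erase x, 2 ≤ U.card → (ins ends F U).card + 4 ≤ 3 * U.card) →
  Pool.Agent.KU.Cone (S.erase x) (fun v => (F.filter fun e => ends e = s(x, v)).card)
    (fun u v => (F.filter fun e => ends e = s(u, v)).card)

/-- LB1 (medium).  Labels for the slots.  For every `z : Sym2 V` the number of the pairs `(v, k)`, `v ∈ S.erase x`, with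
`s(v, (h v k).getD x) = z` is equal to the number of the `e ∈ F` with `ends e = z`: for `z = s(x, v)` these are the `(v, k)` with
`h v k = none`; for `z = s(u, v)`, `u ≠ v`, both different from `x` and in `S`, the `(u, k)` with `h u k = some v` and the `(v, k)` with
`h v k = some u`; for all other `z` both numbers are 0 (no loops, all ends in `S`).  Glue bijections of the fibres. -/
def LB1_stmt : Prop := ∀ (V E : Type) (ends : E → Sym2 V) (S : Finset V) (F : Finset E) (x : V)
  (h : V → ZMod 3 → Option V), x ∈ S → 2 ≤ S.card → (∀ e ∈ F, ∀ v ∈ ends e, v ∈ S) → (∀ e ∈ F, ¬ (ends e).IsDiag) →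
  (∀ v ∈ S.erase x, ∀ k u, h v k = some u → u ∈ S.erase x ∧ u ≠ v) →
  (∀ v ∈ S.erase x, (univ.filter fun k => h v k = none).card = (F.filter fun e => ends e = s(x, v)).card) →
  (∀ u ∈ S.erase x, ∀ v ∈ S.erase x, u ≠ v →
    (univ.filter fun k => h u k = some v).card + (univ.filter fun k => h v k = some u).card =
      (F.filter fun e => ends e = s(u, v)).card) →
  ∃ lam : V → ZMod 3 → E, (∀ v ∈ S.erase x, ∀ k, lam v k ∈ F ∧ ends (lam v k) = s(v, (h v k).getD x)) ∧
    (∀ v ∈ S.erase x, ∀ v' ∈ S.erase x, ∀ k k', lam v k = lam v' k' → v = v' ∧ k = k') ∧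
    ∀ e ∈ F, ∃ v ∈ S.erase x, ∃ k, lam v k = e

/-- LB2 (medium).  The cyclic ordering from the slots.  `m = |S.erase x| = |S| - 1`;
`c j = lam (e (j % m)) (j / m)`.  The window from `j = q m + r` (`0 ≤ r < m`) consists of the `lam (e i) (q + 1)`, `i < r`, and the
`lam (e i) q`, `i ≥ r`: by the last hypothesis every vertex is joined to `x` (induction on `ρ`). -/
def LB2_stmt : Prop := ∀ (V E : Type) (ends : E → Sym2 V) (S : Finset V) (F : Finset E) (x : V)
  (h : V → ZMod 3 → Option V) (lam : V → ZMod 3 → E) (e : Fin (S.erase x).card → V), x ∈ S →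
  (∀ v ∈ S.erase x, ∀ k u, h v k = some u → u ∈ S.erase x ∧ u ≠ v) →
  (∀ v ∈ S.erase x, ∀ k, lam v k ∈ F ∧ ends (lam v k) = s(v, (h v k).getD x)) →
  (∀ v ∈ S.erase x, ∀ v' ∈ S.erase x, ∀ k k', lam v k = lam v' k' → v = v' ∧ k = k') →
  (∀ e ∈ F, ∃ v ∈ S.erase x, ∃ k, lam v k = e) →
  Function.Injective e → (∀ v, v ∈ S.erase x ↔ ∃ i, e i = v) →
  (∀ (q : ZMod 3) (r : ℕ), r ≤ (S.erase x).card → ∃ ρ : V → ℕ, ∀ (i : Fin (S.erase x).card) (u : V),
    (if (i : ℕ) < r then h (e i) (q + 1) else h (e i) q) = some u → ρ u < ρ (e i)) →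
  KO ends S F

/-- CON (assembly: CNE, the theorems MAIN and ORD of helper18, LB1, LB2; done by helper97). -/
def CON_stmt : Prop := ∀ (V E : Type) (ends : E → Sym2 V) (S : Finset V) (F : Finset E) (x : V), G3 ends S F → x ∈ S →
  (∀ v ∈ S, v ≠ x → ∃ e ∈ F, ends e = s(x, v)) →
  (∀ U ⊆ S.erase x, 2 ≤ U.card → (ins ends F U).card + 4 ≤ 3 * U.card) → KO ends S F

/-! ## The inductions -/

/-- ST (short).  One step.  `v` of degree 3 (then `U = S.erase v` is tight and the contracted graph has two vertices, TWO) or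
of degree 4 (G4, G5, I4).  Proof for degree 3: DG and SP3 give `|F[U]| + 3 = 3 |U|`; TG and TSK with `t` any vertex of `U`
(`|S| ≥ 3`).  The hypothesis `hP` is the induction hypothesis for the smaller graph `(ends', F')` on `S.erase v`: the degrees do not
increase and adjacent vertices stay adjacent (for degree 3: `ends' = ends`, `F' = ins ends F (S.erase v)`; for degree 4: D4P). -/
def ST_stmt : Prop := ∀ (V E : Type) (ends : E → Sym2 V) (S : Finset V) (F : Finset E) (v : V), G3 ends S F → 3 ≤ S.card →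
  v ∈ S → dgr ends F v ≤ 4 →
  (∀ (ends' : E → Sym2 V) (F' : Finset E), G3 ends' (S.erase v) F' →
    (∀ w ∈ S.erase v, dgr ends' F' w ≤ dgr ends F w) →
    (∀ w ∈ S.erase v, ∀ w' ∈ S.erase v, (∃ e ∈ F, ends e = s(w, w')) → ∃ e ∈ F', ends' e = s(w, w')) →
    KO ends' (S.erase v) F') → KO ends S F

/-- AA (short).  At most five vertices of degree at least 5.  Strong induction on `|S|`: `|S| ≤ 1`: nothing to prove (KO); `|S| = 2`:
TWO; a vertex of degree at most 4: ST; otherwise all degrees are at least 5, so `|S| ≤ 5`, and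
`5 |S| ≤ 2 |F| = 6 |S| - 6` (DG, SP3): `|S| ≥ 6`, a contradiction. -/
def AA_stmt : Prop := ∀ (V E : Type) (ends : E → Sym2 V) (S : Finset V) (F : Finset E), G3 ends S F →
  (S.filter fun v => 5 ≤ dgr ends F v).card ≤ 5 → KO ends S F

/-- BB (medium).  `x` is adjacent to all vertices of degree at least 5.  Strong induction on `|S|`: `|S| ≤ 2`: as in AA.
If some `v ≠ x` has degree at most 4: ST.  Otherwise `x` is adjacent to all.  If there is no `U ⊆ S.erase x` with `2 ≤ |U|` and
`|F[U]| + 3 = 3 |U|` (SP3): CON.  Otherwise `|U| ≤ 3`, since `F[insert x U]` contains `F[U]` and an edge `x u` for every `u ∈ U`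
(SP3 for `insert x U`).  TG (any `t ∈ U`); KO for `U` by AA; KO for the contracted graph by induction (`x` is adjacent to all
vertices of `cS S U t`; `|cS| = |S| - |U| + 1 < |S|`); TSK. -/
def BB_stmt : Prop := ∀ (V E : Type) (ends : E → Sym2 V) (S : Finset V) (F : Finset E) (x : V), G3 ends S F → x ∈ S →
  (∀ v ∈ S, v ≠ x → 5 ≤ dgr ends F v → ∃ e ∈ F, ends e = s(x, v)) → KO ends S F

/-- RR (short to medium).  The reduction.  Strong induction on `|S|`: `|S| ≤ 5`: AA.  If some `U ⊆ S` with `2 ≤ |U| < |S|` has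
`|F[U]| + 3 = 3 |U|` (SP3): TG, TSK and the induction hypothesis twice.  If some vertex has degree at most 4: ST.  If some
`x` is adjacent to all: CON.  Otherwise `Hd` (CUT). -/
def RR_stmt : Prop := ∀ (V E : Type), (∀ (ends : E → Sym2 V) (S : Finset V) (F : Finset E), Hd ends S F → KO ends S F) →
  ∀ (ends : E → Sym2 V) (S : Finset V) (F : Finset E), G3 ends S F → KO ends S F

/-- LYR (short).  Layers.  Induction on `i ≤ k`: `KO ends (L i) (ins ends F (L i))` and `G3 ends (L i) (ins ends F (L i))` (TG for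
`L k`; the sets `L i` are tight by the hypothesis; `ins` inside `ins`).  Step `i → i + 1`, put `S = L (i+1)`, `F' = ins ends F S`, `U = L i`:
if `U = S` nothing; if `|U| = 1` (so `U = {x}`, as `x ∈ L i`): BB for `x`; otherwise `2 ≤ |U| < |S|`, TG with `t = x`, BB for the contracted
graph and `x`: for `v ∈ S \ U` the degree is the same as before, and `s(u, v)` with `u ∈ U` becomes `s(x, v)`; TSK.  At the end
`ins ends F (L k) = F` by `G3.sub`. -/
def LYR_stmt : Prop := ∀ (V E : Type) (ends : E → Sym2 V) (L : ℕ → Finset V) (F : Finset E) (x : V) (k : ℕ),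
  G3 ends (L k) F → L 0 = {x} → (∀ i < k, L i ⊆ L (i + 1)) →
  (∀ i ≤ k, (ins ends F (L i)).card + 3 = 3 * (L i).card) →
  (∀ i < k, ∀ v ∈ L (i + 1), v ∉ L i → 5 ≤ dgr ends (ins ends F (L (i + 1))) v → ∃ u ∈ L i, ∃ e ∈ F, ends e = s(u, v)) →
  KO ends (L k) F

/-- TGH (short).  Trees that are connected on `U` make `U` tight.  Proof.  MIN for `ins ends (T i) U` on `U` and SP1 give
`|T_i[U]| + 1 = |U|`; `F[U]` is the disjoint union of the three. -/
def TGH_stmt : Prop := ∀ (V E : Type) (ends : E → Sym2 V) (S U : Finset V) (F : Finset E) (T : Fin 3 → Finset E),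
  (∀ e ∈ F, ∀ v ∈ ends e, v ∈ S) → U ⊆ S → U.Nonempty →
  (∀ i, (T i).card + 1 = S.card) → (∀ i, Con ends S (T i : Set E)) → (∀ i j, i ≠ j → Disjoint (T i) (T j)) →
  (∀ e, e ∈ F ↔ ∃ i, e ∈ T i) → (∀ i, Con ends U (ins ends (T i) U : Set E)) →
  (ins ends F U).card + 3 = 3 * U.card

/-! ## Types -/

/-- TR (medium).  From a graph on `S` with the edges `F` to the types `↥S`, `↥F`.  `ends' : ↥F → Sym2 ↥S` with
`(ends' e).map Subtype.val = ends e` (all ends are in `S`).  `Con ends S (Subtype.val '' W) ↔ Con ends' univ W`; sizes of filters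
correspond under `Finset.map` of the embeddings; a `c' : ℤ → ↥F` gives `c = Subtype.val ∘ c'`. -/
def TR_stmt : Prop := (∀ (V E : Type) [Fintype V] [Fintype E] (ends : E → Sym2 V), Hd ends univ univ → KO ends univ univ) →
  ∀ (V E : Type) (ends : E → Sym2 V) (S : Finset V) (F : Finset E), Hd ends S F → KO ends S F

/-- CC (short).  Connectedness as in Pool.Agent.helper58.ECO.G. -/
def CC_stmt : Prop := ∀ (V E : Type) [Fintype V] [Nonempty V] (ends : E → Sym2 V) (F : Set E),
  Pool.Agent.ECO.Connects ends F ↔ Con ends univ F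

/-- the edge set `E` is the union of three pairwise disjoint spanning trees -/
def ThreeTrees {V E : Type} [Fintype V] (ends : E → Sym2 V) : Prop :=
  ∃ T : Fin 3 → Set E, (∀ i, Pool.Agent.ECO.IsSpanningTree ends (T i)) ∧ (∀ i j, i ≠ j → Disjoint (T i) (T j)) ∧
    ∀ e, ∃ i, e ∈ T i

/-- there is a cyclic ordering of the set of all edges -/
def CyclicOrdering {V E : Type} [Fintype V] (ends : E → Sym2 V) : Prop :=
  ∃ c : ℤ → E, (∀ j, c (j + 3 * ((Fintype.card V : ℤ) - 1)) = c j) ∧
    Set.BijOn c (Set.Ico 0 (3 * ((Fintype.card V : ℤ) - 1))) Set.univ ∧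
    ∀ j, Pool.Agent.ECO.IsSpanningTree ends (c '' Set.Ico j (j + ((Fintype.card V : ℤ) - 1)))

/-- TY (short to medium).  The notions for types.  CC; LP for `loop`; for the windows of a cyclic ordering: `c` is injective on
`m` consecutive integers (SHF), so the image has `m` elements. -/
def TY_stmt : Prop := ∀ (V E : Type) [Fintype V] [Fintype E] (ends : E → Sym2 V), 2 ≤ Fintype.card V →
  (ThreeTrees ends ↔ G3 ends univ univ) ∧ (ThreeTrees ends → (CyclicOrdering ends ↔ KO ends univ univ))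

end

end Pool.Agent.helper97.KR
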